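import Pool.Agent.W476.TP.Stm

/-!
# TP-MON: the equation `z = f(y)` is approximated by a monic equation
-/

set_option autoImplicit false

open MvPolynomial

namespace Pool.Agent.W515.TP

open Pool.Agent.W476.TP

variable {r : ℕ} {m : Fin r → ℕ}

/-- the weights of the coordinates `z` (`none`) and `y` -/
def wo (m : Fin r → ℕ) (D : Fin r → ℕ) : Option (Sig m) → (Fin r → ℕ) :=
  fun i => i.elim D (wt m)

theorem weight_elim (D : Fin r → ℕ) (l : ℕ) (α : Sig m →₀ ℕ) :
    Finsupp.weight (wo m D) (α.optionElim l) = l • D + Finsupp.weight (wt m) α := by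
  rw [Finsupp.weight_apply, Finsupp.weight_apply,
    Finsupp.sum_fintype _ _ (fun i => by exact zero_smul ℕ _), Finsupp.sum_fintype _ _
    (fun i => by exact zero_smul ℕ _), Fintype.sum_option]
  simp [wo]

theorem weight_zero {α : Sig m →₀ ℕ} (h : Finsupp.weight (wt m) α = 0) : α = 0 := by
  rw [Finsupp.weight_apply, Finsupp.sum_fintype _ _ (fun i => by exact zero_smul ℕ _)] at h
  ext i
  have h1 := congrFun h i.1
  rw [Finset.sum_apply] at h1
  have h2 := (Finset.sum_eq_zero_iff_of_nonneg (fun _ _ => Nat.zero_le _)).1 h1 i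
    (Finset.mem_univ i)
  rw [Pi.smul_apply, wt, Pi.single_eq_same, smul_eq_mul, mul_one] at h2
  exact h2

theorem rename_some_hom {K : Type} [Field K] {F : MvPolynomial (Sig m) K} {D : Fin r → ℕ}
    (hF : MH F D) : IsWeightedHomogeneous (wo m D) (rename some F) D := by
  classical
  unfold MH at hF
  rw [← hF.weightedHomogeneousComponent_same]
  rw [weightedHomogeneousComponent_apply, map_sum]
  refine IsWeightedHomogeneous.sum _ _ _ fun α hα => ?_
  rw [rename_monomial]
  refine isWeightedHomogeneous_monomial _ _ _ ?_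
  have h1 : Finsupp.weight (wt m) α = D := (Finset.mem_filter.1 hα).2
  conv_rhs => rw [← h1]
  rw [Finsupp.weight_apply, Finsupp.weight_apply, Finsupp.sum_mapDomain_index]
  · rfl
  · intro b; exact zero_smul _ _
  · intro b u v; exact add_smul _ _ _

theorem t_MON : S_APP → S_MON := by
  classical
  intro hApp p _ C L _ _ _ _ _ S hp0 hp1 r m D hD f hf hf1 N hN
  obtain ⟨κ, hκ⟩ : ∃ κ, D κ ≠ 0 := by
    by_contra hcon
    push Not at hcon
    exact hD (funext hcon)
  set h : MvPolynomial (Option (Sig m)) C := X none - rename some f with hh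
  have hhom : IsWeightedHomogeneous (wo m D) h D := by
    refine IsWeightedHomogeneous.sub ?_ (rename_some_hom hf)
    exact isWeightedHomogeneous_X C (wo m D) none
  have hcoef : ∀ α, ‖h.coeff α‖ ≤ 1 := by
    intro α
    rw [hh, coeff_sub, sub_eq_add_neg]
    refine (IsUltrametricDist.norm_add_le_max _ _).trans (max_le ?_ ?_)
    · rw [coeff_X']
      split
      · rw [norm_one]
      · rw [norm_zero]; exact zero_le_one
    · rw [norm_neg]
      by_cases hα : ∃ β, Finsupp.mapDomain some β = α
      · obtain ⟨β, rfl⟩ := hα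
        rw [coeff_rename_mapDomain _ (Option.some_injective _)]
        exact hf1 β
      · rw [coeff_rename_eq_zero _ _ _ (fun β hβ => absurd ⟨β, hβ⟩ hα), norm_zero]
        exact zero_le_one
  obtain ⟨s, G0, hG0, happ⟩ := hApp p C L S hp0 hp1 (Option (Sig m)) (Fin r → ℕ) (wo m D) D h
    hhom hcoef N
  set t := p ^ s with ht
  have ht0 : 0 < t := pow_pos (Fact.out : p.Prime).pos s
  set G1 := optionEquivLeft L (Sig m) G0 with hG1
  have hev : ∀ (y : Sig m → L) (z : L), ev G1 y z = eval (fun i => Option.elim i z y) G0 := by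
    intro y z
    rw [optionEquivLeft_elim_eval]
    rfl
  -- the value of `h`
  have hval : ∀ (y : Sig m → L) (z : L),
      eval (fun i : Option (Sig m) => S.sh (Option.elim i z y)) h =
        S.sh z - eval (fun i => S.sh (y i)) f := by
    intro y z
    rw [hh, map_sub, eval_X, eval_rename]
    rfl
  -- degrees
  have hdeg : ∀ (l : ℕ) (α : Sig m →₀ ℕ), coeff α (G1.coeff l) ≠ 0 →
      l • D + Finsupp.weight (wt m) α = t • D := by
    intro l α hα
    rw [hG1, optionEquivLeft_coeff_coeff] at hα
    rw [← weight_elim]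
    exact hG0 hα
  have hle : ∀ (l : ℕ) (α : Sig m →₀ ℕ), coeff α (G1.coeff l) ≠ 0 → l ≤ t := by
    intro l α hα
    have h1 := congrFun (hdeg l α hα) κ
    rw [Pi.add_apply, Pi.smul_apply, Pi.smul_apply, smul_eq_mul, smul_eq_mul] at h1
    exact Nat.le_of_mul_le_mul_right (by omega) (Nat.pos_of_ne_zero hκ)
  have htop : ∀ α : Sig m →₀ ℕ, coeff α (G1.coeff t) ≠ 0 → α = 0 := by
    intro α hα
    have h1 := hdeg t α hα
    exact weight_zero (add_eq_left.1 h1)
  have hconst : ∀ l : ℕ, coeff 0 (G1.coeff l) ≠ 0 → l = t := by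
    intro l hl
    have h1 := congrFun (hdeg l 0 hl) κ
    rw [map_zero, add_zero, Pi.smul_apply, Pi.smul_apply, smul_eq_mul, smul_eq_mul] at h1
    exact Nat.eq_of_mul_eq_mul_right (Nat.pos_of_ne_zero hκ) h1
  set c := coeff 0 (G1.coeff t) with hc
  have hCc : G1.coeff t = MvPolynomial.C c := by
    ext α
    rw [coeff_C]
    split
    · next h0 => rw [← h0]
    · next h0 =>
      by_contra hne
      exact h0 (htop α hne).symm
  have hnat : G1.natDegree ≤ t := by
    rw [Polynomial.natDegree_le_iff_coeff_eq_zero]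
    intro l hl
    ext α
    rw [coeff_zero]
    by_contra hne
    exact absurd (hle l α hne) (not_le.2 hl)
  have hc0 : c ≠ 0 := by
    intro hc0
    have h1 : ev G1 0 1 = 0 := by
      unfold ev
      rw [Polynomial.eval_map, Polynomial.eval₂_eq_sum_range]
      refine Finset.sum_eq_zero fun l _ => ?_
      rw [one_pow, mul_one]
      have h2 : (eval (0 : Sig m → L)) (G1.coeff l) = coeff 0 (G1.coeff l) := by
        rw [eval_zero, constantCoeff_eq]
      rw [h2]
      by_contra hne
      rw [hconst l hne] at hne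
      exact hne hc0
    rw [hev] at h1
    have h3 := happ _ (by
      intro i
      cases i with
      | none =>
        show ‖S.sh 1‖ ≤ 1
        rw [map_one, norm_one]
      | some i =>
        show ‖S.sh 0‖ ≤ 1
        rw [map_zero, norm_zero]
        exact zero_le_one) h1
    rw [hval] at h3
    have h4 : eval (fun i : Sig m => S.sh ((0 : Sig m → L) i)) f = 0 := by
      have h5 : (fun i : Sig m => S.sh ((0 : Sig m → L) i)) = 0 := by
        funext i
        rw [Pi.zero_apply, map_zero]
        rfl
      rw [h5, eval_zero, constantCoeff_eq]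
      by_contra hne
      have h6 := hf hne
      rw [map_zero] at h6
      exact hD h6.symm
    rw [h4, map_one, sub_zero, norm_one] at h3
    exact absurd h3 (not_le.2 (pow_lt_one₀ hp0.le hp1 hN.ne'))
  -- the monic polynomial
  set G : Polynomial (MvPolynomial (Sig m) L) := Polynomial.C (MvPolynomial.C c⁻¹) * G1 with hG
  have hGc : ∀ l, G.coeff l = MvPolynomial.C c⁻¹ * G1.coeff l := by
    intro l
    rw [hG, Polynomial.coeff_C_mul]
  have hGt : G.coeff t = 1 := by
    rw [hGc, hCc, ← map_mul, inv_mul_cancel₀ hc0, map_one]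
  have hGn : G.natDegree ≤ t := (Polynomial.natDegree_C_mul_le _ _).trans hnat
  have hmonic : G.Monic := Polynomial.monic_of_natDegree_le_of_coeff_eq_one t hGn hGt
  have hGd : G.natDegree = t := by
    refine le_antisymm hGn (Polynomial.le_natDegree_of_ne_zero ?_)
    rw [hGt]
    exact one_ne_zero
  refine ⟨t, G, ⟨ht0, hmonic, hGd, ?_⟩, ?_⟩
  · intro l hl
    intro α hα
    rw [hGc, coeff_C_mul] at hα
    have h1 := hdeg l α (right_ne_zero_of_mul hα)
    have h2 : l • D + Finsupp.weight (wt m) α = l • D + (t - l) • D := by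
      rw [h1, ← add_smul, Nat.add_sub_cancel' hl]
    exact add_left_cancel h2
  · intro y z hy hz h0
    have h1 : ev G y z = c⁻¹ * ev G1 y z := by
      unfold ev
      rw [hG, Polynomial.map_mul, Polynomial.eval_mul, Polynomial.map_C, Polynomial.eval_C,
        eval_C]
    rw [h1] at h0
    have h2 : ev G1 y z = 0 := by
      rcases mul_eq_zero.1 h0 with h | h
      · exact absurd h (inv_ne_zero hc0)
      · exact h
    rw [hev] at h2
    have h3 := happ _ (by
      intro i
      cases i with
      | none => exact hz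
      | some i => exact hy i) h2
    rw [hval] at h3
    exact h3

end Pool.Agent.W515.TP
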